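import Mathlib

set_option autoImplicit false

namespace Pool.Agent.Results.MP_2eee52_co.PendantLeaf

open Matrix

/-- `S(G)`: real symmetric matrices whose off-diagonal zero pattern is exactly that of `G`
(the diagonal is unrestricted). -/
def SMat {V : Type} (G : SimpleGraph V) : Set (Matrix V V ℝ) :=
  {A | A.IsSymm ∧ ∀ i j, i ≠ j → (A i j ≠ 0 ↔ G.Adj i j)}

/-- The strong spectral property of a real symmetric matrix. -/
def HasSSP {V : Type} [Fintype V] [DecidableEq V] (A : Matrix V V ℝ) : Prop :=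
  ∀ X : Matrix V V ℝ, X.IsSymm → A ⊙ X = 0 → (1 : Matrix V V ℝ) ⊙ X = 0 →
    A * X - X * A = 0 → X = 0

/-- `G` is an SSP graph if every matrix in `S(G)` has the SSP. -/
def IsSSPGraph {V : Type} [Fintype V] [DecidableEq V] (G : SimpleGraph V) : Prop :=
  ∀ A ∈ SMat G, HasSSP A

/-- The graph obtained from `G` by adding one new vertex `none`, joined to `v` only. -/
def addPendant {V : Type} (G : SimpleGraph V) (v : V) : SimpleGraph (Option V) where
  Adj x y := match x, y with
    | some a, some b => G.Adj a b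
    | none, some b => b = v
    | some a, none => a = v
    | none, none => False
  symm := ⟨by
    rintro (_ | a) (_ | b) h
    · exact h
    · exact h
    · exact h
    · exact SimpleGraph.Adj.symm h⟩
  loopless := ⟨by
    rintro (_ | a) h
    · exact h
    · exact G.loopless.irrefl a h⟩

/-- edge list of the counterexample -/
def edges : List (Fin 7 × Fin 7) :=
  [(0, 3), (0, 4), (0, 5), (1, 2), (2, 4), (2, 5), (3, 5), (4, 5), (0, 6)]

/-- the counterexample graph on seven vertices -/
def G7 : SimpleGraph (Fin 7) where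
  Adj i j := (i, j) ∈ edges ∨ (j, i) ∈ edges
  symm := ⟨fun _ _ h => Or.symm h⟩
  loopless := ⟨by decide⟩

instance : DecidableRel G7.Adj := fun i j =>
  inferInstanceAs (Decidable ((i, j) ∈ edges ∨ (j, i) ∈ edges))

theorem G7_ssp : IsSSPGraph G7 := by
  rintro A ⟨hsym, hpat⟩ X hX hAX hIX hcomm
  have hs : ∀ i j, A j i = A i j := fun i j => hsym.apply i j
  have xs : ∀ i j, X j i = X i j := fun i j => hX.apply i j
  have nz : ∀ i j, i ≠ j → G7.Adj i j → A i j ≠ 0 := fun i j hij h => (hpat i j hij).mpr h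
  have z : ∀ i j, i ≠ j → ¬ G7.Adj i j → A i j = 0 := fun i j hij h => by
    by_contra hne
    exact h ((hpat i j hij).mp hne)
  have xd : ∀ i, X i i = 0 := fun i => by
    have := congrFun (congrFun hIX i) i
    simpa [Matrix.hadamard_apply] using this
  have xe : ∀ i j, i ≠ j → G7.Adj i j → X i j = 0 := fun i j hij h => by
    have := congrFun (congrFun hAX i) j
    rw [Matrix.hadamard_apply, Matrix.zero_apply] at this
    exact (mul_eq_zero.mp this).resolve_left (nz i j hij h)
  have hc : ∀ i j, ∑ l, A i l * X l j - ∑ l, X i l * A l j = 0 := fun i j => by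
    have := congrFun (congrFun hcomm i) j
    rwa [Matrix.sub_apply, Matrix.mul_apply, Matrix.mul_apply, Matrix.zero_apply] at this
  -- zero entries of `A`
  have a01 := z 0 1 (by decide) (by decide)
  have a02 := z 0 2 (by decide) (by decide)
  have a13 := z 1 3 (by decide) (by decide)
  have a14 := z 1 4 (by decide) (by decide)
  have a15 := z 1 5 (by decide) (by decide)
  have a16 := z 1 6 (by decide) (by decide)
  have a23 := z 2 3 (by decide) (by decide)
  have a26 := z 2 6 (by decide) (by decide)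
  have a34 := z 3 4 (by decide) (by decide)
  have a36 := z 3 6 (by decide) (by decide)
  have a46 := z 4 6 (by decide) (by decide)
  have a56 := z 5 6 (by decide) (by decide)
  -- nonzero entries of `A`
  have n03 := nz 0 3 (by decide) (by decide)
  have n04 := nz 0 4 (by decide) (by decide)
  have n05 := nz 0 5 (by decide) (by decide)
  have n12 := nz 1 2 (by decide) (by decide)
  have n24 := nz 2 4 (by decide) (by decide)
  have n25 := nz 2 5 (by decide) (by decide)
  have n35 := nz 3 5 (by decide) (by decide)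
  have n45 := nz 4 5 (by decide) (by decide)
  have n06 := nz 0 6 (by decide) (by decide)
  -- zero entries of `X`
  have x03 := xe 0 3 (by decide) (by decide)
  have x04 := xe 0 4 (by decide) (by decide)
  have x05 := xe 0 5 (by decide) (by decide)
  have x12 := xe 1 2 (by decide) (by decide)
  have x24 := xe 2 4 (by decide) (by decide)
  have x25 := xe 2 5 (by decide) (by decide)
  have x35 := xe 3 5 (by decide) (by decide)
  have x45 := xe 4 5 (by decide) (by decide)
  have x06 := xe 0 6 (by decide) (by decide)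
  have x00 := xd 0
  have x11 := xd 1
  have x22 := xd 2
  have x33 := xd 3
  have x44 := xd 4
  have x55 := xd 5
  have x66 := xd 6
  -- symmetry
  have s10 : A 1 0 = A 0 1 := hs 0 1
  have y10 : X 1 0 = X 0 1 := xs 0 1
  have s20 : A 2 0 = A 0 2 := hs 0 2
  have y20 : X 2 0 = X 0 2 := xs 0 2
  have s30 : A 3 0 = A 0 3 := hs 0 3
  have y30 : X 3 0 = X 0 3 := xs 0 3
  have s40 : A 4 0 = A 0 4 := hs 0 4
  have y40 : X 4 0 = X 0 4 := xs 0 4
  have s50 : A 5 0 = A 0 5 := hs 0 5
  have y50 : X 5 0 = X 0 5 := xs 0 5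
  have s60 : A 6 0 = A 0 6 := hs 0 6
  have y60 : X 6 0 = X 0 6 := xs 0 6
  have s21 : A 2 1 = A 1 2 := hs 1 2
  have y21 : X 2 1 = X 1 2 := xs 1 2
  have s31 : A 3 1 = A 1 3 := hs 1 3
  have y31 : X 3 1 = X 1 3 := xs 1 3
  have s41 : A 4 1 = A 1 4 := hs 1 4
  have y41 : X 4 1 = X 1 4 := xs 1 4
  have s51 : A 5 1 = A 1 5 := hs 1 5
  have y51 : X 5 1 = X 1 5 := xs 1 5
  have s61 : A 6 1 = A 1 6 := hs 1 6
  have y61 : X 6 1 = X 1 6 := xs 1 6
  have s32 : A 3 2 = A 2 3 := hs 2 3
  have y32 : X 3 2 = X 2 3 := xs 2 3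
  have s42 : A 4 2 = A 2 4 := hs 2 4
  have y42 : X 4 2 = X 2 4 := xs 2 4
  have s52 : A 5 2 = A 2 5 := hs 2 5
  have y52 : X 5 2 = X 2 5 := xs 2 5
  have s62 : A 6 2 = A 2 6 := hs 2 6
  have y62 : X 6 2 = X 2 6 := xs 2 6
  have s43 : A 4 3 = A 3 4 := hs 3 4
  have y43 : X 4 3 = X 3 4 := xs 3 4
  have s53 : A 5 3 = A 3 5 := hs 3 5
  have y53 : X 5 3 = X 3 5 := xs 3 5
  have s63 : A 6 3 = A 3 6 := hs 3 6
  have y63 : X 6 3 = X 3 6 := xs 3 6
  have s54 : A 5 4 = A 4 5 := hs 4 5
  have y54 : X 5 4 = X 4 5 := xs 4 5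
  have s64 : A 6 4 = A 4 6 := hs 4 6
  have y64 : X 6 4 = X 4 6 := xs 4 6
  have s65 : A 6 5 = A 5 6 := hs 5 6
  have y65 : X 6 5 = X 5 6 := xs 5 6
  -- the equations used
  have c45 := hc 4 5
  have c35 := hc 3 5
  have c23 := hc 2 3
  have c24 := hc 2 4
  have c25 := hc 2 5
  have c13 := hc 1 3
  have c01 := hc 0 1
  have c02 := hc 0 2
  have c03 := hc 0 3
  have c04 := hc 0 4
  have c05 := hc 0 5
  have c36 := hc 3 6
  simp only [Fin.sum_univ_seven,
    a01, a02, a13, a14, a15, a16, a23, a26, a34, a36, a46, a56, x03, x04, x05, x12, x24, x25,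
    x35, x45, x06, x00, x11, x22, x33, x44, x55, x66, s10, s20, s30, s40, s21, s31,
    s41, s51, s61, s32, s42, s52, s62, s43, s53, s63, s54, s64, s65, y10, y20, y30, y40,
    y21, y31, y41, y51, y61, y32, y42, y52, y62, y43, y53, y63, y54, y64, y65, mul_zero,
    zero_mul, add_zero, zero_add, sub_zero, zero_sub] at c45 c35 c23 c24 c25 c13 c01 c02 c03 c04 c05 c36
  have v34 : X 3 4 = 0 := by
    have : X 3 4 * A 3 5 = 0 := by linarith
    exact (mul_eq_zero.mp this).resolve_right n35
  rw [v34] at c35 c23 c03 c04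
  have v23 : X 2 3 = 0 := by
    have : X 2 3 * A 2 5 = 0 := by linarith
    exact (mul_eq_zero.mp this).resolve_right n25
  rw [v23] at c23 c25 c13 c02
  have v36 : X 3 6 = 0 := by
    have : A 0 6 * X 3 6 = 0 := by linarith
    exact (mul_eq_zero.mp this).resolve_left n06
  rw [v36] at c36
  have v56 : X 5 6 = 0 := by
    have : A 3 5 * X 5 6 = 0 := by linarith
    exact (mul_eq_zero.mp this).resolve_left n35
  rw [v56] at c05
  have v02 : X 0 2 = 0 := by
    have : X 0 2 * A 2 5 = 0 := by linarith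
    exact (mul_eq_zero.mp this).resolve_right n25
  rw [v02] at c23 c24 c25 c01 c02 c04
  have v13 : X 1 3 = 0 := by
    have : A 1 2 * X 1 3 = 0 := by linarith
    exact (mul_eq_zero.mp this).resolve_left n12
  have v14 : X 1 4 = 0 := by
    have : A 1 2 * X 1 4 = 0 := by linarith
    exact (mul_eq_zero.mp this).resolve_left n12
  have v15 : X 1 5 = 0 := by
    have : A 1 2 * X 1 5 = 0 := by linarith
    exact (mul_eq_zero.mp this).resolve_left n12
  rw [v13, v15] at c13
  have v01 : X 0 1 = 0 := by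
    have : X 0 1 * A 0 3 = 0 := by linarith
    exact (mul_eq_zero.mp this).resolve_right n03
  rw [v13, v14, v15, v01] at c01
  rw [v01] at c02
  have v16 : X 1 6 = 0 := by
    have : A 0 6 * X 1 6 = 0 := by linarith
    exact (mul_eq_zero.mp this).resolve_left n06
  have v26 : X 2 6 = 0 := by
    have : A 0 6 * X 2 6 = 0 := by linarith
    exact (mul_eq_zero.mp this).resolve_left n06
  have v46 : X 4 6 = 0 := by
    have : A 0 6 * X 4 6 = 0 := by linarith
    exact (mul_eq_zero.mp this).resolve_left n06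
  have key : ∀ i j : Fin 7, i ≤ j → X i j = 0 := by
    intro i j hij
    fin_cases i <;> fin_cases j <;> first | assumption | (exact absurd hij (by decide))
  ext i j
  rw [Matrix.zero_apply]
  rcases le_total i j with h | h
  · exact key i j h
  · rw [← xs]; exact key j i h

/-- entries of an integer matrix in `S(H)`, where `H = addPendant G7 6`; index `7` is the new
vertex -/
def Alist : List (List ℤ) :=
  [[0, 0, 0, 12, 4, -3, 5, 0],
   [0, 0, 13, 0, 0, 0, 0, 0],
   [0, 13, 0, 0, 3, 4, 0, 0],
   [12, 0, 0, 25, 0, 100, 0, 0],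
   [4, 0, 3, 0, 9, 12, 0, 0],
   [-3, 0, 4, 100, 12, 416, 0, 0],
   [5, 0, 0, 0, 0, 0, 281, -208],
   [0, 0, 0, 0, 0, 0, -208, 169]]

/-- entries of an integer matrix violating the SSP -/
def Xlist : List (List ℤ) :=
  [[0, 0, 65, 0, 0, 0, 0, 0],
   [0, 0, 0, 60, 20, -15, 0, 0],
   [65, 0, 0, 0, 0, 0, 0, 0],
   [0, 60, 0, 0, 0, 0, 0, -25],
   [0, 20, 0, 0, 0, 0, 39, 48],
   [0, -15, 0, 0, 0, 0, 52, -36],
   [0, 0, 0, 0, 39, 52, 0, 0],
   [0, 0, 0, -25, 48, -36, 0, 0]]

/-- position of a vertex of `H` in the lists above -/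
def pos : Option (Fin 7) → ℕ
  | none => 7
  | some i => i

/-- the integer matrix in `S(H)` -/
def aZ : Option (Fin 7) → Option (Fin 7) → ℤ :=
  fun i j => ((Alist.getD (pos i) []).getD (pos j) 0)

/-- the integer matrix violating the SSP for `aZ` -/
def xZ : Option (Fin 7) → Option (Fin 7) → ℤ :=
  fun i j => ((Xlist.getD (pos i) []).getD (pos j) 0)

instance (v : Fin 7) : DecidableRel (addPendant G7 v).Adj := fun x y =>
  match x, y with
  | none, none => inferInstanceAs (Decidable False)
  | none, some b => inferInstanceAs (Decidable (b = v))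
  | some a, none => inferInstanceAs (Decidable (a = v))
  | some a, some b => inferInstanceAs (Decidable (G7.Adj a b))

theorem aZ_symm : ∀ i j, aZ i j = aZ j i := by decide

theorem xZ_symm : ∀ i j, xZ i j = xZ j i := by decide

theorem aZ_pattern : ∀ i j, i ≠ j → (aZ i j ≠ 0 ↔ (addPendant G7 6).Adj i j) := by decide

theorem axZ : ∀ i j, aZ i j * xZ i j = 0 := by decide

theorem ixZ : ∀ i, xZ i i = 0 := by decide

theorem commZ : ∀ i j, ∑ l, aZ i l * xZ l j = ∑ l, xZ i l * aZ l j := by decide +kernel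

theorem H_not_ssp : ¬ IsSSPGraph (addPendant G7 6) := by
  intro h
  have hA : (Matrix.of fun i j => (aZ i j : ℝ)) ∈ SMat (addPendant G7 6) := by
    refine ⟨?_, fun i j hij => ?_⟩
    · ext i j
      rw [Matrix.transpose_apply, Matrix.of_apply, Matrix.of_apply, aZ_symm]
    · rw [← aZ_pattern i j hij, Matrix.of_apply]
      exact Int.cast_ne_zero
  have key := h _ hA (Matrix.of fun i j => (xZ i j : ℝ)) ?_ ?_ ?_ ?_
  · have := congrFun (congrFun key (some 0)) (some 2)
    rw [Matrix.of_apply, Matrix.zero_apply, Int.cast_eq_zero] at this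
    exact absurd this (by decide)
  · ext i j
    rw [Matrix.transpose_apply, Matrix.of_apply, Matrix.of_apply, xZ_symm]
  · ext i j
    rw [Matrix.hadamard_apply, Matrix.of_apply, Matrix.of_apply, ← Int.cast_mul, axZ,
      Int.cast_zero, Matrix.zero_apply]
  · ext i j
    rw [Matrix.hadamard_apply, Matrix.of_apply, Matrix.zero_apply]
    by_cases hij : i = j
    · subst hij
      rw [ixZ, Int.cast_zero, mul_zero]
    · rw [Matrix.one_apply_ne hij, zero_mul]
  · ext i j
    rw [Matrix.sub_apply, Matrix.mul_apply, Matrix.mul_apply, Matrix.zero_apply, sub_eq_zero]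
    simp only [Matrix.of_apply]
    have := commZ i j
    exact_mod_cast this

/-- A leaf of an SSP graph at which attaching a pendant vertex leaves the class of SSP graphs:
there are a graph `G` on seven vertices, every matrix of which has the SSP, and a vertex `v` of `G`
with exactly one neighbour, such that the graph obtained by adding a new vertex adjacent to `v`
only is not an SSP graph. -/
theorem result : ∃ (G : SimpleGraph (Fin 7)) (v : Fin 7), IsSSPGraph G ∧ (∃! u, G.Adj v u) ∧
    ¬ IsSSPGraph (addPendant G v) := by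
  refine ⟨G7, 6, G7_ssp, ?_, H_not_ssp⟩
  exact ⟨0, by decide, by decide⟩

end Pool.Agent.Results.MP_2eee52_co.PendantLeaf
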